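import Mathlib

namespace Pool.Agent.Results.MP_acde3d_al.Yes

/-- The generalized non-coprime graph on the non-identity elements of `G`. -/
def Gam {G : Type} [Group G] (H : Subgroup G) : SimpleGraph {x : G // x ≠ 1} where
  Adj a b := a ≠ b ∧ Nat.gcd (orderOf a.1) (orderOf b.1) ≠ 1 ∧ (a.1 ∈ H ∨ b.1 ∈ H)
  symm := ⟨fun _ _ h => ⟨h.1.symm, by rw [Nat.gcd_comm]; exact h.2.1, h.2.2.symm⟩⟩
  loopless := ⟨fun _ h => h.1 rfl⟩

variable {G G' : Type} [Group G] [Group G'] [Finite G] [Finite G']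

omit [Finite G] in
lemma adj_of {H : Subgroup G} {a b : {x : G // x ≠ 1}} {p : ℕ} (hp : p.Prime) (hne : a ≠ b)
    (ha : p ∣ orderOf a.1) (hb : p ∣ orderOf b.1) (h : a.1 ∈ H ∨ b.1 ∈ H) : (Gam H).Adj a b :=
  ⟨hne, fun e => hp.one_lt.ne' (Nat.dvd_one.mp (e ▸ Nat.dvd_gcd ha hb)), h⟩

omit [Finite G] in
lemma prime_of {H : Subgroup G} {a b : {x : G // x ≠ 1}} (h : (Gam H).Adj a b) :
    ∃ p : ℕ, p.Prime ∧ p ∣ orderOf a.1 ∧ p ∣ orderOf b.1 := by
  obtain ⟨p, hp, hd⟩ := Nat.exists_prime_and_dvd h.2.1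
  exact ⟨p, hp, hd.trans (Nat.gcd_dvd_left _ _), hd.trans (Nat.gcd_dvd_right _ _)⟩

lemma exists_pow {H : Subgroup G} {u : G} (hu : u ∈ H) {p : ℕ} (hp : p.Prime)
    (h : p ∣ orderOf u) : ∃ z : {x : G // x ≠ 1}, z.1 ∈ H ∧ orderOf z.1 = p := by
  have h1 := orderOf_pow_orderOf_div (orderOf_pos u).ne' h
  refine ⟨⟨u ^ (orderOf u / p), fun e => ?_⟩, H.pow_mem hu _, h1⟩
  rw [e, orderOf_one] at h1
  exact hp.one_lt.ne h1

def inv' (a : {x : G // x ≠ 1}) : {x : G // x ≠ 1} := ⟨a.1⁻¹, inv_ne_one.mpr a.2⟩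

omit [Finite G] in
lemma inv'_eq {a : {x : G // x ≠ 1}} (h : a = inv' a) : orderOf a.1 = 2 := by
  have h1 : a.1 = a.1⁻¹ := congrArg Subtype.val h
  refine orderOf_eq_prime ?_ a.2
  rw [sq]; nth_rewrite 1 [h1]; exact inv_mul_cancel _

omit [Finite G] in
lemma even_mul {H : Subgroup G} {v c : G} (hv : v ∉ H) (hc : c ∈ H) (h2 : orderOf v = 2)
    (hcomm : Commute v c) : 2 ∣ orderOf (v * c) := by
  by_contra hodd
  obtain ⟨k, hk⟩ : ∃ k, orderOf (v * c) = 2 * k + 1 := ⟨orderOf (v * c) / 2, by omega⟩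
  have h1 := pow_orderOf_eq_one (v * c)
  have h3 : v ^ 2 = 1 := h2 ▸ pow_orderOf_eq_one v
  rw [hcomm.mul_pow, hk, pow_succ v, pow_mul, h3, one_pow, one_mul] at h1
  exact hv (eq_inv_of_mul_eq_one_left h1 ▸ H.inv_mem (H.pow_mem hc _))

omit [Finite G] in
lemma second {H : Subgroup G} (hH : H ≠ ⊥) {v : {x : G // x ≠ 1}} (hv : v.1 ∉ H) {p : ℕ}
    (hp : p.Prime) (h : p ∣ orderOf v.1) :
    ∃ w : {x : G // x ≠ 1}, w.1 ∉ H ∧ w ≠ v ∧ p ∣ orderOf w.1 := by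
  by_contra hcon
  have hc : ∀ w : G, w ∉ H → p ∣ orderOf w → w = v.1 := by
    intro w hw hd
    by_contra hne
    exact hcon ⟨⟨w, fun e => hw (e ▸ H.one_mem)⟩, hw, fun e => hne (congrArg Subtype.val e), hd⟩
  have h2 : orderOf v.1 = 2 := inv'_eq (Subtype.ext
    (hc v.1⁻¹ (fun e => hv (by simpa using e)) (by simpa using h)).symm)
  obtain rfl : p = 2 := (Nat.prime_dvd_prime_iff_eq hp Nat.prime_two).mp (h2 ▸ h)
  obtain ⟨⟨c, hcH⟩, hc1⟩ := Subgroup.ne_bot_iff_exists_ne_one.mp hH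
  have hc2 : c ≠ 1 := fun e => hc1 (Subtype.ext e)
  have h3 : c * v.1 * c⁻¹ = v.1 := by
    apply hc
    · intro e
      apply hv
      have := H.mul_mem (H.mul_mem (H.inv_mem hcH) e) hcH
      simpa [mul_assoc] using this
    · have : orderOf (c * v.1 * c⁻¹) = orderOf v.1 :=
        (SemiconjBy.orderOf_eq c (x := v.1) (y := c * v.1 * c⁻¹) (by simp [SemiconjBy])).symm
      rw [this]; exact h
  have hcomm : Commute v.1 c := (mul_inv_eq_iff_eq_mul.mp h3).symm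
  have h4 := hc (v.1 * c) (fun e => hv ((H.mul_mem_cancel_right hcH).mp e))
    (even_mul hv hcH h2 hcomm)
  exact hc2 (by simpa using h4)

omit [Finite G] in
lemma isolated {H : Subgroup G} {h : {x : G // x ≠ 1}} (hh : h.1 ∈ H)
    (hiso : ∀ x, ¬ (Gam H).Adj h x) : ∀ x, x = h := by
  have hc : ∀ x : {x : G // x ≠ 1}, Nat.gcd (orderOf h.1) (orderOf x.1) ≠ 1 → x = h := by
    intro x hx
    by_contra hne
    exact hiso x ⟨fun e => hne e.symm, hx, Or.inl hh⟩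
  have h2 : orderOf h.1 = 2 := inv'_eq (hc (inv' h) (by
    simp only [inv', orderOf_inv, Nat.gcd_self, ne_eq, orderOf_eq_one_iff]; exact h.2)).symm
  have hd : ∀ x : G, 2 ∣ orderOf x → x = h.1 := by
    intro x hx
    have hx1 : x ≠ 1 := fun e => by rw [e, orderOf_one] at hx; omega
    refine congrArg Subtype.val (hc ⟨x, hx1⟩ ?_)
    rw [h2, Nat.gcd_eq_left hx]; omega
  intro x
  by_contra hne
  have hodd : ¬ 2 ∣ orderOf x.1 := fun e => hne (Subtype.ext (hd _ e))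
  have h3 : x.1 * h.1 * x.1⁻¹ = h.1 := by
    apply hd
    have : orderOf (x.1 * h.1 * x.1⁻¹) = orderOf h.1 :=
      (SemiconjBy.orderOf_eq x.1 (x := h.1) (y := x.1 * h.1 * x.1⁻¹) (by simp [SemiconjBy])).symm
    rw [this, h2]
  have hcomm : Commute h.1 x.1 := (mul_inv_eq_iff_eq_mul.mp h3).symm
  have h5 : h.1 ∉ Subgroup.zpowers x.1 := fun e => hodd (h2 ▸ orderOf_dvd_of_mem_zpowers e)
  have h4 := hd _ (even_mul h5 (Subgroup.mem_zpowers _) h2 hcomm)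
  exact x.2 (by simpa using h4)

lemma maps {H : Subgroup G} {H' : Subgroup G'} (hH : H ≠ ⊥) (hH' : H' ≠ ⊥)
    (φ : Gam H ≃g Gam H') (h : {x : G // x ≠ 1}) (hh : h.1 ∈ H) : (φ h).1 ∈ H' := by
  by_contra hv
  have K : ∀ q : ℕ, q.Prime → q ∣ orderOf (φ h).1 → ∀ u, (φ u).1 ∈ H' → orderOf (φ u).1 = q →
      u.1 ∉ H := by
    intro q hq hqv u huH' hu huH
    obtain ⟨w', hw', hne, hqw⟩ := second hH' hv hq hqv
    obtain ⟨w, rfl⟩ := φ.surjective w'
    have a1 : (Gam H).Adj u h := φ.map_adj_iff.mp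
      (adj_of hq (fun e => hv (e ▸ huH')) (hu ▸ dvd_rfl) hqv (Or.inl huH'))
    have a2 : (Gam H).Adj u w := φ.map_adj_iff.mp
      (adj_of hq (fun e => hw' (e ▸ huH')) (hu ▸ dvd_rfl) hqw (Or.inl huH'))
    obtain ⟨p, hp, hpu, hph⟩ := prime_of a1
    obtain ⟨r, hr, hru, hrw⟩ := prime_of a2
    have hpw : ¬ p ∣ orderOf w.1 := by
      intro e
      have := φ.map_adj_iff.mpr (adj_of (H := H) hp (fun e => hne (by rw [e])) hph e (Or.inl hh))
      exact this.2.2.elim hv hw'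
    have hpr : p ≠ r := fun e => hpw (e ▸ hrw)
    have qd : ∀ z : {x : G // x ≠ 1}, orderOf z.1 = p ∨ orderOf z.1 = r →
        q ∣ orderOf (φ z).1 := by
      intro z hz
      have : (Gam H).Adj u z := by
        rcases hz with hz | hz
        · refine adj_of hp (fun e => hpr ?_) hpu (hz ▸ dvd_rfl) (Or.inl huH)
          rw [e, hz] at hru
          exact ((Nat.prime_dvd_prime_iff_eq hr hp).mp hru).symm
        · refine adj_of hr (fun e => hpr ?_) hru (hz ▸ dvd_rfl) (Or.inl huH)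
          rw [e, hz] at hpu
          exact (Nat.prime_dvd_prime_iff_eq hp hr).mp hpu
      obtain ⟨s, hs, h1, h2⟩ := prime_of (φ.map_adj_iff.mpr this)
      rw [hu] at h1
      exact (Nat.prime_dvd_prime_iff_eq hs hq).mp h1 ▸ h2
    have P1 : ∀ z : {x : G // x ≠ 1}, orderOf z.1 = p → (φ z).1 ∉ H' := by
      intro z hz e
      obtain ⟨s, hs, h1, h2⟩ := prime_of (φ.map_adj_iff.mp
        (adj_of hq (fun e' => hw' (e' ▸ e)) (qd z (Or.inl hz)) hqw (Or.inl e)))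
      rw [hz] at h1
      exact hpw ((Nat.prime_dvd_prime_iff_eq hs hp).mp h1 ▸ h2)
    obtain ⟨z, hzH, hz⟩ := exists_pow huH hp hpu
    obtain ⟨y, hyH, hy⟩ := exists_pow huH hr hru
    have P2 : ∀ y : {x : G // x ≠ 1}, orderOf y.1 = r → (φ y).1 ∉ H' := by
      intro y hy e
      obtain ⟨s, hs, h1, h2⟩ := prime_of (φ.map_adj_iff.mp
        (adj_of hq (fun e' => P1 z hz (e' ▸ e)) (qd y (Or.inr hy)) (qd z (Or.inl hz)) (Or.inl e)))
      rw [hy] at h1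
      rw [hz] at h2
      exact hpr (((Nat.prime_dvd_prime_iff_eq hs hp).mp h2).symm.trans
        ((Nat.prime_dvd_prime_iff_eq hs hr).mp h1))
    have two : ∀ (s : ℕ) (z : {x : G // x ≠ 1}), s.Prime → z.1 ∈ H → orderOf z.1 = s →
        (∀ z : {x : G // x ≠ 1}, orderOf z.1 = s → (φ z).1 ∉ H') → s = 2 := by
      intro s z hs h1 h2 h3
      by_contra hne2
      have h4 : orderOf (inv' z).1 = s := by simp only [inv', orderOf_inv, h2]
      have := φ.map_adj_iff.mpr (adj_of (H := H) hs (fun e => hne2 (h2.symm.trans (inv'_eq e)))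
        (h2 ▸ dvd_rfl) (h4 ▸ dvd_rfl) (Or.inl h1))
      exact this.2.2.elim (h3 _ h2) (h3 _ h4)
    exact hpr ((two p z hp hzH hz P1).trans (two r y hr hyH hy P2).symm)
  have K2 : ∀ x, (Gam H).Adj h x → (φ x).1 ∈ H' ∧ 2 ∣ orderOf (φ x).1 ∧ 2 ∣ orderOf (φ h).1 := by
    intro x hx
    have h1 := φ.map_adj_iff.mpr hx
    have h2 : (φ x).1 ∈ H' := h1.2.2.resolve_left hv
    obtain ⟨q, hq, h3, h4⟩ := prime_of h1
    obtain ⟨y', hy', h5⟩ := exists_pow h2 hq h4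
    obtain rfl : q = 2 := by
      by_contra hne
      obtain ⟨y, rfl⟩ := φ.surjective y'
      obtain ⟨y2, e2⟩ := φ.surjective (inv' (φ y))
      have h6 : orderOf (φ y2).1 = q := by rw [e2]; simp only [inv', orderOf_inv, h5]
      have := φ.map_adj_iff.mp (adj_of (H := H') (a := φ y) (b := φ y2) hq
        (fun e => hne (h5.symm.trans (inv'_eq (e.trans e2)))) (h5 ▸ dvd_rfl) (h6 ▸ dvd_rfl)
        (Or.inl hy'))
      exact this.2.2.elim (K q hq h3 y hy' h5)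
        (K q hq h3 y2 (by rw [e2]; exact H'.inv_mem hy') h6)
    exact ⟨h2, h4, h3⟩
  by_cases hiso : ∃ x, (Gam H).Adj h x
  · obtain ⟨x, hx⟩ := hiso
    obtain ⟨h1, h2, h3⟩ := K2 x hx
    obtain ⟨y', hy', h5⟩ := exists_pow h1 Nat.prime_two h2
    obtain ⟨u, rfl⟩ := φ.surjective y'
    have hu := K 2 Nat.prime_two h3 u hy' h5
    have a1 : (Gam H).Adj h u := φ.map_adj_iff.mp
      (adj_of Nat.prime_two (fun e => hv (e ▸ hy')) h3 (h5 ▸ dvd_rfl) (Or.inr hy'))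
    obtain ⟨p, hp, hph, hpu⟩ := prime_of a1
    obtain ⟨u2, h6, h7, h8⟩ := second hH hu hp hpu
    obtain ⟨h9, h10, -⟩ := K2 u2 (adj_of hp (fun e => h6 (e ▸ hh)) hph h8 (Or.inl hh))
    have := φ.map_adj_iff.mp (adj_of (H := H') Nat.prime_two (fun e => h7 (φ.injective e)) h10
      (h5 ▸ dvd_rfl) (Or.inl h9))
    exact this.2.2.elim h6 hu
  · push Not at hiso
    obtain ⟨⟨c, hcH⟩, hc1⟩ := Subgroup.ne_bot_iff_exists_ne_one.mp hH'
    obtain ⟨x, hx⟩ := φ.surjective ⟨c, fun e => hc1 (Subtype.ext e)⟩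
    rw [isolated hh hiso x] at hx
    exact hv (by rw [hx]; exact hcH)

/-- Every isomorphism of the graphs maps `H \ {1}` onto `H' \ {1}`. -/
theorem result (G G' : Type) [Group G] [Group G'] [Finite G] [Finite G']
    (H : Subgroup G) (H' : Subgroup G') (hH : H ≠ ⊥) (hH' : H' ≠ ⊥) (φ : Gam H ≃g Gam H') :
    φ '' {x | x.1 ∈ H} = {y | y.1 ∈ H'} := by
  ext y
  constructor
  · rintro ⟨x, hx, rfl⟩
    exact maps hH hH' φ x hx
  · intro hy
    exact ⟨φ.symm y, maps hH' hH φ.symm y hy, φ.apply_symm_apply y⟩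

end Pool.Agent.Results.MP_acde3d_al.Yes
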